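import Pool.Agent.W2helper1.WM.Glue
import Pool.Agent.Y276.WM.Asm

/-!
# Smooth data without a smooth wave map on any time slab
-/

set_option autoImplicit false

namespace Pool.Agent.W2helper1.WM

open Filter Topology MeasureTheory Pool.Agent.Y276.WM

variable {d n : ℕ}

/-- the notion of a wave map on a cone depends only on the data in its base -/
lemma transfer {T : ℝ} {y : Fin d → ℝ} {Ω : Set (Fin (d + 1) → ℝ)} (hΩ : Ω ⊆ cone T y)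
    {u0 u1 w0 w1 : (Fin d → ℝ) → (Fin (n + 1) → ℝ)} {u : (Fin (d + 1) → ℝ) → (Fin (n + 1) → ℝ)}
    (h : ∀ z, sd z y ≤ T ^ 2 → u0 z = w0 z ∧ u1 z = w1 z) (hu : IsWaveMap Ω u0 u1 u) :
    IsWaveMap Ω w0 w1 u := by
  refine ⟨hu.smooth, hu.pos, hu.eqn, fun z hz => ?_⟩
  have h1 := hΩ hz
  have h2 : sd z y ≤ T ^ 2 := by
    have h3 := h1.2.2
    simp only [Fin.cons_succ, Fin.cons_zero, sub_zero] at h3
    exact h3
  obtain ⟨e0, e1⟩ := h z h2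
  rw [← e0, ← e1]
  exact hu.init z hz

theorem slab (d n : ℕ) (hd : 3 ≤ d) (hn : 1 ≤ n) (v0 v1 : (Fin d → ℝ) → (Fin (n + 1) → ℝ))
    (hv0 : ContDiff ℝ (⊤ : ℕ∞) v0) (hv1 : ContDiff ℝ (⊤ : ℕ∞) v1)
    (hpos : ∀ x, 0 < v0 x (Fin.last n)) (x : ℕ → Fin d → ℝ)
    (hx : ∀ i j, i ≠ j → 1 ≤ sd (x i) (x j)) (r : ℕ → ℝ) (hr : ∀ i, 0 < r i)
    (ε : ℝ) (hε : 0 < ε) :
    ∃ u0 u1 : (Fin d → ℝ) → (Fin (n + 1) → ℝ),
      ContDiff ℝ (⊤ : ℕ∞) u0 ∧ ContDiff ℝ (⊤ : ℕ∞) u1 ∧ (∀ z, 0 < u0 z (Fin.last n)) ∧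
      (∀ z, (∀ i, r i ^ 2 ≤ sd z (x i)) → u0 z = v0 z ∧ u1 z = v1 z) ∧
      (∀ m : ℕ, 2 * m < d →
        ∫⁻ z, ‖iteratedFDeriv ℝ m (fun z => u0 z - v0 z) z‖ₑ ^ 2 < ENNReal.ofReal ε) ∧
      (∀ m : ℕ, 2 * (m + 1) < d →
        ∫⁻ z, ‖iteratedFDeriv ℝ m (fun z => u1 z - v1 z) z‖ₑ ^ 2 < ENNReal.ofReal ε) ∧
      (∀ i, ∃ T : ℝ, 0 < T ∧ T < r i ∧
        (∃ u, IsWaveMap (cone T (x i) \ {Fin.cons T (x i)}) u0 u1 u) ∧
        (∀ u, IsWaveMap (cone T (x i) \ {Fin.cons T (x i)}) u0 u1 u →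
          Tendsto (fun t => u (Fin.cons t (x i)) (Fin.last n)) (𝓝[<] T) (𝓝 0)) ∧
        ∀ (Ω : Set (Fin (d + 1) → ℝ)) (u : (Fin (d + 1) → ℝ) → (Fin (n + 1) → ℝ)),
          cone T (x i) ⊆ Ω → ¬ IsWaveMap Ω u0 u1 u) ∧
      ∀ (τ : ℝ) (u : (Fin (d + 1) → ℝ) → (Fin (n + 1) → ℝ)), 0 < τ →
        ¬ IsWaveMap {P | 0 ≤ P 0 ∧ P 0 < τ} u0 u1 u := by
  -- the radii
  obtain ⟨δ, hδ⟩ : ∃ δ : ℕ → ℝ, δ = fun i =>
    min (min (r i) (1 / 4)) (min (ε / 4 * (1 / 2) ^ i) (1 / ((i : ℝ) + 1))) := ⟨_, rfl⟩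
  have hδ0 : ∀ i, 0 < δ i := by
    intro i
    rw [hδ]
    have := hr i
    positivity
  have hδ1 : ∀ i, δ i ≤ r i := fun i => by
    rw [hδ]; exact (min_le_left _ _).trans (min_le_left _ _)
  have hδ2 : ∀ i, δ i ≤ 1 / 4 := fun i => by
    rw [hδ]; exact (min_le_left _ _).trans (min_le_right _ _)
  have hδ3 : ∀ i, δ i ≤ ε / 4 * (1 / 2) ^ i := fun i => by
    rw [hδ]; exact (min_le_right _ _).trans (min_le_left _ _)
  have hδ4 : ∀ i, δ i ≤ 1 / ((i : ℝ) + 1) := fun i => by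
    rw [hδ]; exact (min_le_right _ _).trans (min_le_right _ _)
  have hδsq : ∀ i, δ i ^ 2 ≤ 1 / 16 := by
    intro i
    have := pow_le_pow_left₀ (hδ0 i).le (hδ2 i) 2
    norm_num at this ⊢
    exact this
  choose U0 U1 T hU0 hU1 hUp hUv hUn0 hUn1 hT0 hT1 hex hlim hno using
    fun i => main d n hd hn v0 v1 hv0 hv1 hpos (x i) (δ i) (hδ0 i)
  have hUv0 : ∀ i z, 1 / 16 ≤ sd z (x i) → U0 i z = v0 z := fun i z hz =>
    (hUv i z ((hδsq i).trans hz)).1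
  have hUv1 : ∀ i z, 1 / 16 ≤ sd z (x i) → U1 i z = v1 z := fun i z hz =>
    (hUv i z ((hδsq i).trans hz)).2
  have hbase : ∀ i z, sd z (x i) ≤ T i ^ 2 →
      glue x v0 U0 z = U0 i z ∧ glue x v1 U1 z = U1 i z := by
    intro i z hz
    have h1 : T i ^ 2 ≤ δ i ^ 2 := pow_le_pow_left₀ (hT0 i).le (hT1 i).le 2
    have h2 : sd z (x i) < 1 / 4 := by
      have := hδsq i
      linarith
    exact ⟨glue_in hx h2, glue_in hx h2⟩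
  have hno' : ∀ i (Ω : Set (Fin (d + 1) → ℝ)) (u : (Fin (d + 1) → ℝ) → (Fin (n + 1) → ℝ)),
      cone (T i) (x i) ⊆ Ω → ¬ IsWaveMap Ω (glue x v0 U0) (glue x v1 U1) u := by
    intro i Ω u hΩ hu
    exact hno i (cone (T i) (x i)) u subset_rfl (transfer subset_rfl (hbase i) (hu.mono hΩ))
  refine ⟨glue x v0 U0, glue x v1 U1, glue_smooth hx hUv0 hv0 hU0, glue_smooth hx hUv1 hv1 hU1,
    ?_, ?_, ?_, ?_, ?_, ?_⟩
  · intro z
    rcases glue_local hx hUv0 z with ⟨i, h⟩ | h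
    · rw [h.eq_of_nhds]
      exact hUp i z
    · rw [h.eq_of_nhds]
      exact hpos z
  · intro z hz
    have h1 : ∀ i, U0 i z = v0 z ∧ U1 i z = v1 z := fun i =>
      hUv i z ((pow_le_pow_left₀ (hδ0 i).le (hδ1 i) 2).trans (hz i))
    exact ⟨glue_out fun i => (h1 i).1, glue_out fun i => (h1 i).2⟩
  · intro m hm
    exact glue_norm hx hUv0 hv0 hU0 m hε fun i => ((hUn0 i m hm).le.trans (hδ3 i))
  · intro m hm
    exact glue_norm hx hUv1 hv1 hU1 m hε fun i => ((hUn1 i m hm).le.trans (hδ3 i))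
  · intro i
    refine ⟨T i, hT0 i, (hT1 i).trans_le (hδ1 i), ?_, ?_, hno' i⟩
    · obtain ⟨u, hu⟩ := hex i
      exact ⟨u, transfer Set.sdiff_subset (fun z hz => ⟨(hbase i z hz).1.symm, (hbase i z hz).2.symm⟩)
        hu⟩
    · intro u hu
      exact hlim i u (transfer Set.sdiff_subset (hbase i) hu)
  · intro τ u hτ hu
    obtain ⟨i, hi⟩ := exists_nat_one_div_lt hτ
    refine hno' i _ u ?_ hu
    rintro P ⟨h0, h1, -⟩
    exact ⟨h0, lt_of_le_of_lt h1 ((hT1 i).trans_le (hδ4 i) |>.trans hi)⟩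

end Pool.Agent.W2helper1.WM
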