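import Mathlib

/-!
# Gluing of maps which differ from a given map in small balls
-/

set_option autoImplicit false

namespace Pool.Agent.W2helper1.WM

open Filter Topology MeasureTheory

variable {d n : ℕ}

/-- squared Euclidean distance -/
def sd (x y : Fin d → ℝ) : ℝ := ∑ i, (x i - y i) ^ 2

lemma sd_comm (x y : Fin d → ℝ) : sd x y = sd y x := by
  unfold sd
  exact Finset.sum_congr rfl fun i _ => by ring

lemma sd_tri (x y z : Fin d → ℝ) : sd x z ≤ 2 * sd x y + 2 * sd y z := by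
  unfold sd
  rw [Finset.mul_sum, Finset.mul_sum, ← Finset.sum_add_distrib]
  apply Finset.sum_le_sum
  intro i _
  nlinarith [sq_nonneg ((x i - y i) - (y i - z i))]

lemma sd_cont (y : Fin d → ℝ) : Continuous (fun x : Fin d → ℝ => sd x y) := by
  unfold sd
  fun_prop

variable {F : Type*} (x : ℕ → Fin d → ℝ) (v : (Fin d → ℝ) → F) (U : ℕ → (Fin d → ℝ) → F)

open Classical in
/-- the map `U i` in the ball of radius `1/2` around `x i`, and `v` elsewhere -/
noncomputable def glue (z : Fin d → ℝ) : F :=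
  if h : ∃ i, sd z (x i) < 1 / 4 then U h.choose z else v z

variable {x v U}

lemma glue_in (hx : ∀ i j, i ≠ j → 1 ≤ sd (x i) (x j)) {i : ℕ} {z : Fin d → ℝ}
    (h : sd z (x i) < 1 / 4) : glue x v U z = U i z := by
  have hex : ∃ i, sd z (x i) < 1 / 4 := ⟨i, h⟩
  unfold glue
  rw [dif_pos hex]
  have : hex.choose = i := by
    by_contra hne
    have h1 := hx _ _ hne
    have h2 := sd_tri (x hex.choose) z (x i)
    have h3 := hex.choose_spec
    rw [sd_comm] at h3
    linarith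
  rw [this]

lemma glue_out {z : Fin d → ℝ} (h : ∀ i, U i z = v z) : glue x v U z = v z := by
  unfold glue
  split_ifs with hex
  · exact h _
  · rfl

lemma glue_local (hx : ∀ i j, i ≠ j → 1 ≤ sd (x i) (x j))
    (hU : ∀ i z, 1 / 16 ≤ sd z (x i) → U i z = v z) (z : Fin d → ℝ) :
    (∃ i, glue x v U =ᶠ[𝓝 z] U i) ∨ glue x v U =ᶠ[𝓝 z] v := by
  by_cases h : ∃ i, sd z (x i) < 1 / 4
  · obtain ⟨i, hi⟩ := h
    left
    refine ⟨i, ?_⟩
    filter_upwards [(isOpen_lt (sd_cont (x i)) continuous_const).mem_nhds hi] with w hw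
    exact glue_in hx hw
  · right
    push Not at h
    have h0 : sd z z < 1 / 16 := by
      unfold sd
      simp
    filter_upwards [(isOpen_lt (sd_cont z) continuous_const).mem_nhds h0] with w hw
    apply glue_out
    intro i
    apply hU
    by_contra hlt
    push Not at hlt
    have h1 := sd_tri z w (x i)
    have h2 := h i
    rw [sd_comm z w] at h1
    have h3 : sd w z < 1 / 16 := hw
    linarith

variable [NormedAddCommGroup F] [NormedSpace ℝ F]

lemma glue_smooth (hx : ∀ i j, i ≠ j → 1 ≤ sd (x i) (x j))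
    (hU : ∀ i z, 1 / 16 ≤ sd z (x i) → U i z = v z) (hv : ContDiff ℝ (⊤ : ℕ∞) v)
    (hUs : ∀ i, ContDiff ℝ (⊤ : ℕ∞) (U i)) : ContDiff ℝ (⊤ : ℕ∞) (glue x v U) := by
  rw [contDiff_iff_contDiffAt]
  intro z
  rcases glue_local hx hU z with ⟨i, h⟩ | h
  · exact (hUs i).contDiffAt.congr_of_eventuallyEq h
  · exact hv.contDiffAt.congr_of_eventuallyEq h

lemma compact_ball (y : Fin d → ℝ) : IsCompact {z : Fin d → ℝ | sd z y ≤ 1 / 16} := by
  refine Metric.isCompact_of_isClosed_isBounded (isClosed_le (sd_cont y) continuous_const) ?_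
  refine (Metric.isBounded_closedBall (x := y) (r := 1)).subset fun z hz => ?_
  rw [Metric.mem_closedBall, dist_pi_le_iff zero_le_one]
  intro i
  rw [Real.dist_eq]
  have h1 : (z i - y i) ^ 2 ≤ sd z y :=
    Finset.single_le_sum (f := fun i => (z i - y i) ^ 2) (fun i _ => sq_nonneg _)
      (Finset.mem_univ i)
  have h2 : sd z y ≤ 1 / 16 := hz
  rw [← sq_le_one_iff_abs_le_one]
  linarith

lemma one_norm (m : ℕ) {w : (Fin d → ℝ) → F} {y : Fin d → ℝ} (hw : ContDiff ℝ (⊤ : ℕ∞) w)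
    (h0 : ∀ z, 1 / 16 ≤ sd z y → w z = 0) :
    ∫⁻ z, ‖iteratedFDeriv ℝ m w z‖ₑ ^ 2 = ENNReal.ofReal (∫ z, ‖iteratedFDeriv ℝ m w z‖ ^ 2) := by
  have hc : Continuous (fun z => iteratedFDeriv ℝ m w z) :=
    hw.continuous_iteratedFDeriv (by exact_mod_cast le_top)
  have hcs : HasCompactSupport w := by
    refine HasCompactSupport.intro (compact_ball y) fun z hz => ?_
    apply h0
    by_contra h
    push Not at h
    exact hz h.le
  have hcs2 : HasCompactSupport (fun z => ‖iteratedFDeriv ℝ m w z‖ ^ 2) := by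
    have h1 := hcs.iteratedFDeriv (𝕜 := ℝ) m
    exact h1.comp_left (g := fun a => ‖a‖ ^ 2) (by simp)
  have hint : Integrable (fun z => ‖iteratedFDeriv ℝ m w z‖ ^ 2) :=
    (hc.norm.pow 2).integrable_of_hasCompactSupport hcs2
  rw [ofReal_integral_eq_lintegral_ofReal hint (Eventually.of_forall fun z => by positivity)]
  refine lintegral_congr fun z => ?_
  rw [ENNReal.ofReal_pow (norm_nonneg _), ofReal_norm]

lemma glue_norm (hx : ∀ i j, i ≠ j → 1 ≤ sd (x i) (x j))
    (hU : ∀ i z, 1 / 16 ≤ sd z (x i) → U i z = v z) (hv : ContDiff ℝ (⊤ : ℕ∞) v)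
    (hUs : ∀ i, ContDiff ℝ (⊤ : ℕ∞) (U i)) (m : ℕ) {ε : ℝ} (hε : 0 < ε)
    (h : ∀ i, ∫ z, ‖iteratedFDeriv ℝ m (fun z => U i z - v z) z‖ ^ 2 ≤ ε / 4 * (1 / 2) ^ i) :
    ∫⁻ z, ‖iteratedFDeriv ℝ m (fun z => glue x v U z - v z) z‖ₑ ^ 2 < ENNReal.ofReal ε := by
  have h1 : ∀ z, ‖iteratedFDeriv ℝ m (fun z => glue x v U z - v z) z‖ₑ ^ 2 ≤
      ∑' i, ‖iteratedFDeriv ℝ m (fun z => U i z - v z) z‖ₑ ^ 2 := by
    intro z
    rcases glue_local hx hU z with ⟨i, h⟩ | h
    · have h2 : (fun z => glue x v U z - v z) =ᶠ[𝓝 z] (fun z => U i z - v z) := by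
        filter_upwards [h] with w hw
        rw [hw]
      rw [(h2.iteratedFDeriv ℝ m).eq_of_nhds]
      exact ENNReal.le_tsum i
    · have h2 : (fun z => glue x v U z - v z) =ᶠ[𝓝 z] (fun _ => (0 : F)) := by
        filter_upwards [h] with w hw
        rw [hw, sub_self]
      have h3 : iteratedFDeriv ℝ m (fun _ : Fin d → ℝ => (0 : F)) z = 0 := by
        rw [iteratedFDeriv_fun_zero]
        rfl
      rw [(h2.iteratedFDeriv ℝ m).eq_of_nhds, ← ofReal_norm, h3, norm_zero, ENNReal.ofReal_zero,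
        zero_pow two_ne_zero]
      exact bot_le
  have hc : ∀ i, Measurable fun z => ‖iteratedFDeriv ℝ m (fun z => U i z - v z) z‖ₑ ^ 2 := by
    intro i
    have hc : Continuous (fun z => iteratedFDeriv ℝ m (fun z => U i z - v z) z) :=
      ((hUs i).sub hv).continuous_iteratedFDeriv (by exact_mod_cast le_top)
    exact hc.enorm.measurable.pow_const 2
  calc ∫⁻ z, ‖iteratedFDeriv ℝ m (fun z => glue x v U z - v z) z‖ₑ ^ 2
      ≤ ∫⁻ z, ∑' i, ‖iteratedFDeriv ℝ m (fun z => U i z - v z) z‖ₑ ^ 2 := lintegral_mono h1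
    _ = ∑' i, ∫⁻ z, ‖iteratedFDeriv ℝ m (fun z => U i z - v z) z‖ₑ ^ 2 :=
        lintegral_tsum fun i => (hc i).aemeasurable
    _ ≤ ∑' i : ℕ, ENNReal.ofReal (ε / 4 * (1 / 2) ^ i) := by
        refine ENNReal.tsum_le_tsum fun i => ?_
        rw [one_norm m ((hUs i).sub hv) (y := x i) (fun z hz => by rw [hU i z hz, sub_self])]
        exact ENNReal.ofReal_le_ofReal (h i)
    _ = ENNReal.ofReal (∑' i : ℕ, ε / 4 * (1 / 2) ^ i) := by
        rw [ENNReal.ofReal_tsum_of_nonneg (fun i => by positivity)]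
        exact (summable_geometric_two).mul_left _
    _ < ENNReal.ofReal ε := by
        rw [tsum_mul_left, tsum_geometric_two]
        exact (ENNReal.ofReal_lt_ofReal_iff hε).2 (by linarith)

end Pool.Agent.W2helper1.WM
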